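import Pool.Agent.Lib.OC75.Odd

/-! An initial stage generated by two elements of odd order. -/

namespace Pool.Agent.Lib.OCn

open Monoid Monoid.CoprodI Classical

section

variable {ι : Type} {M : ι → Type} [∀ i, CommGroup (M i)]

theorem of_fix (i : ι) (c : M i) :
    (of c : CoprodI M) • (Sum.inr ⟨i, QuotientGroup.mk 1⟩ : BS M) =
      Sum.inr ⟨i, QuotientGroup.mk 1⟩ := by
  have : (QuotientGroup.mk ((of c : CoprodI M) * 1) : CoprodI M ⧸ (of (M := M) (i := i)).range) =
      QuotientGroup.mk 1 := by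
    rw [mul_one, ← one_mul (of c)]
    exact QuotientGroup.mk_mul_of_mem 1 ⟨c, rfl⟩
  exact congrArg (fun t => (Sum.inr ⟨i, t⟩ : BS M)) this

theorem of_disp (i : ι) (c : M i) :
    (bsp M).d (.inl 1) ((of c : CoprodI M) • (Sum.inl 1 : BS M)) ≤ 2 := by
  have h1 := (bsp M).disp_move (of c : CoprodI M) (Sum.inr ⟨i, QuotientGroup.mk 1⟩) (.inl 1)
  rw [of_fix, (bsp M).d_self, (bsp M).d_comm (.inr _)] at h1
  have h2 : (bsp M).d (.inl 1) (Sum.inr ⟨i, QuotientGroup.mk 1⟩) = 1 := bs_adj 1 i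
  omega

theorem not_inverted {i j : ι} (hij : i ≠ j) (c : M i) {a : M j} (ha : a * a ≠ 1) (e : CoprodI M) :
    e * (of c * of a) * e⁻¹ ≠ (of c * of a)⁻¹ := by
  intro h
  have h1 := congrArg (fun g => lift (fun k => MonoidHom.mulSingle M k) g j) h
  simp only [map_mul, map_inv, lift_of, MonoidHom.mulSingle_apply, Pi.mul_apply, Pi.inv_apply,
    Pi.mulSingle_eq_same, Pi.mulSingle_eq_of_ne hij.symm, one_mul, mul_inv_cancel_comm] at h1
  exact ha (by nth_rewrite 1 [h1]; simp)

end

theorem exists_two_of {A : Type} [CommGroup A] [Finite A] {s : A}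
    (hs : ∀ a : A, a ∈ Subgroup.zpowers s) (hs1 : s ≠ 1) {n k : ℕ} (h1 : orderOf s ≤ n)
    (hn : n < 2 * 2 ^ k) (hk : 100000000000000000000000000000000000000000000000 ≤ 2 ^ k)
    (f : A → ℕ) (f1 : ∀ t, f t ≤ n)
    (f2 : ∀ t, 100000000000000000000000000000000000000000000000 ≤ f t) :
    ∃ (G X : Type) (_ : Group G) (_ : MulAction G X) (S : GSp G X), Lev S n (2 ^ k) ∧
      (∃ a b : G, orderOf a = orderOf s ∧ orderOf b = orderOf s ∧ Subgroup.closure {a, b} = ⊤) ∧
      ∀ t : A, t * t ≠ 1 → ∃ g : G, orderOf g = f t := by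
  have hT : TreeAct (bsp fun _ : Bool => A) n :=
    bs_tree (by have := f1 s; have := f2 s; omega) (fun _ => s) (fun _ => isOfFinOrder_of_finite _)
      (fun _ => h1) fun _ => hs
  have := hT.ne
  let φ : CoprodI (fun _ : Bool => A) →* (Bool → A) :=
    lift fun k => MonoidHom.mulSingle (fun _ : Bool => A) k
  let P : Apo (bsp fun _ : Bool => A).scale → A → Prop :=
    fun v t => ∃ e ∈ v.1.1, φ e false = s ∧ φ e true = t
  have hP : ∀ (g : CoprodI fun _ : Bool => A) v, P (g • v) = P v := fun g v => by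
    ext t
    constructor
    · rintro ⟨e, he, h⟩
      exact ⟨_, Apx.mem_smul.1 he, by simpa using h⟩
    · rintro ⟨e, he, h⟩
      exact ⟨g * e * g⁻¹, Apx.mem_smul.2 (by simpa [mul_assoc] using he), by simpa using h⟩
  have hO : OddSt (bsp fun _ : Bool => A).scale n (2 ^ k) fun v => f (epsilon (P v)) :=
    ⟨hT.lev_scale hn hk, hT.mal, fun g v => by rw [hP], fun _ => f1 _, hn, fun _ => f2 _,
      fun g hg => by
        have := (bsp fun _ : Bool => A).scale_tau g
        have := hT.tau_ge hg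
        linarith⟩
  have ho : ∀ i : Bool, orderOf (hO.rot.quo.π (of (i := i) s)) = orderOf s := fun i => by
    rw [hO.order_eq _ (of.isOfFinOrder (isOfFinOrder_of_finite _)),
      orderOf_injective _ (of_injective _)]
  refine ⟨_, _, _, _, hO.rot.quo.sp, hO.levQ _, ⟨_, _, ho false, ho true, ?_⟩, fun t ht => ?_⟩
  · rw [eq_top_iff]
    rintro g -
    obtain ⟨g, rfl⟩ := hO.rot.quo.π_surj g
    induction g using CoprodI.induction_on with
    | one => rw [map_one]; exact Subgroup.one_mem _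
    | mul x y hx hy => rw [map_mul]; exact Subgroup.mul_mem _ hx hy
    | of i c =>
      obtain ⟨j, rfl⟩ := hs c
      simp only [map_zpow]
      refine Subgroup.zpow_mem _ (Subgroup.subset_closure ?_) j
      cases i
      · exact Or.inl rfl
      · exact Or.inr rfl
  have t1 : t ≠ 1 := fun h => ht (by rw [h, mul_one])
  have b1 := hT.not_fin (c := of (i := false) s) (a := of (i := true) t)
    (fun h => hs1 (of_injective (M := fun _ : Bool => A) false (h.trans (map_one _).symm)))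
    (fun h => t1 (of_injective (M := fun _ : Bool => A) true (h.trans (map_one _).symm)))
    (of_fix (M := fun _ : Bool => A) false s) (of_fix (M := fun _ : Bool => A) true t)
    (fun h => Bool.false_ne_true (Sigma.mk.inj (Sum.inr_injective h)).1)
  have b2 : (bsp fun _ : Bool => A).scale.tau (of (i := false) s * of (i := true) t) ≤ 1 := by
    refine (GSp.tau_le_one _ _ (.inl 1)).trans ?_
    have e1 := (bsp fun _ : Bool => A).disp_mul (of (i := false) s) (of (i := true) t) (.inl 1)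
    have e2 := of_disp (M := fun _ : Bool => A) false s
    have e3 := of_disp (M := fun _ : Bool => A) true t
    rw [GSp.scale_d]
    exact_mod_cast (by omega : _ ≤ 1)
  obtain ⟨v, hv⟩ : ∃ v : Apo (bsp fun _ : Bool => A).scale,
      of (i := false) s * of (i := true) t ∈ v.1.1 :=
    ⟨⟨⟨_, _, b1, b2, rfl⟩, fun e he hf => by
      obtain ⟨L⟩ := hO.lev.pre.lox b1
      exact (hT.mal.inverts b1 L he hf).resolve_right
        (not_inverted (M := fun _ : Bool => A) Bool.false_ne_true s ht e)⟩, self_mem_Ec _⟩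
  have b3 : P v t := ⟨_, hv, by simp [φ], by simp [φ]⟩
  have b4 : ∀ t t', P v t → P v t' → t = t' := by
    rintro _ _ ⟨e, he, e1, rfl⟩ ⟨e', he', e2, rfl⟩
    obtain ⟨L⟩ := hO.lev.lox v.1
    rw [Apo.eq_zpow L he, map_zpow, Pi.pow_apply] at e1 ⊢
    rw [Apo.eq_zpow L he', map_zpow, Pi.pow_apply] at e2 ⊢
    obtain ⟨j, hj⟩ := hs (φ L.x true)
    simp only at hj
    rw [← hj]
    generalize (L.ψ e).a = m at *
    generalize (L.ψ e').a = m' at *
    calc (s ^ j) ^ m = ((φ L.x false ^ m') ^ j) ^ m := by rw [e2]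
      _ = ((φ L.x false ^ m) ^ j) ^ m' := by
        simp only [← zpow_mul]; congr 1; ring
      _ = (s ^ j) ^ m' := by rw [e1]
  rw [← b4 _ _ (epsilon_spec ⟨t, b3⟩) b3]
  exact hO.exists_order hO.rot.quo v

/-- The initial stage generated by two elements of prime order. -/
theorem exists_base_two {n k p : ℕ} (h0 : 10 ^ 48 ≤ n) (hn : n < 2 * 2 ^ k) (hp : p.Prime)
    (h1 : p ≤ n) (h2 : n < 2 * p) :
    ∃ (G X : Type) (_ : Group G) (_ : MulAction G X) (S : GSp G X), Lev S n (2 ^ k) ∧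
      (∃ a b : G, orderOf a = p ∧ orderOf b = p ∧ Subgroup.closure {a, b} = ⊤) ∧
      ∀ m, 1 ≤ m → m ≤ n → ∃ g : G, orderOf g = m := by
  have : NeZero p := ⟨hp.ne_zero⟩
  have ho : orderOf (Multiplicative.ofAdd (1 : ZMod p)) = p := by
    rw [orderOf_ofAdd_eq_addOrderOf, ZMod.addOrderOf_one]
  obtain ⟨G, X, _, _, S, a1, ⟨a, b, a2, a3, a4⟩, a5⟩ :=
    exists_two_of (s := Multiplicative.ofAdd (1 : ZMod p)) (fun m => by
      refine ⟨(m.toAdd.val : ℤ), ?_⟩
      simp only
      rw [← ofAdd_zsmul]; simp) (fun h => by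
        rw [h, orderOf_one] at ho
        omega) (n := n) (by omega) hn (by omega)
      (fun t => min n (max (n + 1 - t.toAdd.val) (n / 2))) (fun _ => by omega) (fun _ => by omega)
  rw [ho] at a2 a3
  have key : ∀ r, n < 2 * r → r ≤ n → ∃ g : G, orderOf g = r := by
    intro r r1 r2
    by_cases hr : r = p
    · exact ⟨a, by rw [a2, hr]⟩
    have h3 : ((n + 1 - r : ℕ) : ZMod p).val = n + 1 - r := ZMod.val_natCast_of_lt (by omega)
    obtain ⟨g, hg⟩ := a5 (Multiplicative.ofAdd ((n + 1 - r : ℕ) : ZMod p)) (fun h => by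
      have h4 : ((2 * (n + 1 - r) : ℕ) : ZMod p) = 0 := by
        have := congrArg Multiplicative.toAdd h
        rw [toAdd_mul, toAdd_ofAdd, toAdd_one] at this
        rw [two_mul, Nat.cast_add, this]
      rw [ZMod.natCast_eq_zero_iff] at h4
      rcases (Nat.Prime.dvd_mul hp).1 h4 with h5 | h5
      · have := Nat.le_of_dvd two_pos h5
        omega
      · have := Nat.le_of_dvd (by omega) h5
        omega)
    refine ⟨g, ?_⟩
    rw [hg, toAdd_ofAdd, h3]
    omega
  refine ⟨G, X, _, _, S, a1, ⟨a, b, a2, a3, a4⟩, fun m m1 m2 => ?_⟩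
  have e1 := Nat.div_add_mod n m
  have e2 := Nat.mod_lt n m1
  have e3 : 0 < n / m := Nat.div_pos m2 m1
  have e4 : m * 1 ≤ m * (n / m) := Nat.mul_le_mul_left m e3
  obtain ⟨g, hg⟩ := key (m * (n / m)) (by omega) (by omega)
  refine ⟨g ^ (n / m), ?_⟩
  rw [orderOf_pow_of_dvd e3.ne' (by rw [hg]; exact Dvd.intro_left m rfl), hg,
    Nat.mul_div_cancel _ e3]

end Pool.Agent.Lib.OCn
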