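import Pool.Agent.Lib.MP_de4dbb_al.Limit

/-! Groups whose finite subgroups lie in malnormal cyclic subgroups; the rescaled tree. -/

namespace Pool.Agent.Lib.OCn

/-- Finite subgroups lie in cyclic subgroups of order at most `n` that are malnormal. -/
def Mal (G : Type) [Group G] (n : ℕ) : Prop :=
  ∀ H : Subgroup G, (H : Set G).Finite → ∃ c : G, IsOfFinOrder c ∧ orderOf c ≤ n ∧
    H ≤ Subgroup.zpowers c ∧ ∀ g : G, ∀ t ∈ H, t ≠ 1 → g * t * g⁻¹ ∈ H → g ∈ Subgroup.zpowers c

namespace Mal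

variable {G : Type} [Group G] {n : ℕ} (hM : Mal G n)
include hM

theorem law {g : G} {c : ℕ → G} (hc : Chain6 g c) {F : Subgroup G} (hF : (F : Set G).Finite)
    (h : ∀ j, 1 ≤ j → j ≤ 5 → c j ∈ F) : Law c := by
  obtain ⟨y, -, -, y3, y4⟩ := hM F hF
  have key : ∀ j, 1 ≤ j → j ≤ 4 → c (j + 1) = c j := fun j h1 h4 => by
    rw [← hc j (by omega)]
    by_cases h0 : c j = 1
    · simp [h0]
    obtain ⟨a, rfl⟩ := y4 g _ (h j h1 (by omega)) h0 (by
      rw [hc j (by omega)]; exact h _ (by omega) (by omega))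
    obtain ⟨b, hb⟩ := y3 (h j h1 (by omega))
    rw [← hb]
    group
  rw [Law, key 4 (by omega) (by omega), key 3 (by omega) (by omega), key 2 (by omega) (by omega),
    key 1 (by omega) (by omega)]
  group

theorem comm {g t : G} (hg : ¬ IsOfFinOrder g) (ht : IsOfFinOrder t) (h : g * t * g⁻¹ = t) :
    t = 1 := by
  by_contra h1
  obtain ⟨y, y1, -, -, y4⟩ := hM _ (finite_zpowers.2 ht)
  exact hg (finOrder_of_mem (finite_zpowers.2 y1)
    (y4 g t (Subgroup.mem_zpowers t) h1 (by rw [h]; exact Subgroup.mem_zpowers t)))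

theorem alg {k : ℕ} (hn : n < 2 * 2 ^ k) : Alg G n (2 ^ k) where
  sa g c H hc hH h := hM.law hc hH fun j _ _ => h j (by omega)
  sc g c F hc hF h _ _ _ _ := hM.law hc hF h
  two g t hg ht h := ⟨0, by simpa using hM.comm hg ht h⟩
  sepa F g hF h2 hg f hf h1 := by
    obtain ⟨c, c1, c2, hle, hc⟩ := hM F hF
    obtain ⟨φ, a1, a2⟩ := exists_cyc c1 (c2.trans_lt hn)
    have hg' := hc g f hf h1 (hg f hf)
    exact ⟨φ, φ g, a1.mono hle, fun h => h1 (a2 f (hle hf) (h2 f hf) h),
      fun t ht => a1.conj hg' (hle ht)⟩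
  sepb F a b hF h2 ha hb _ _ f hf h1 := by
    obtain ⟨c, c1, c2, hle, hc⟩ := hM F hF
    obtain ⟨φ, a1, a2⟩ := exists_cyc c1 (c2.trans_lt hn)
    have ha' := hc a f hf h1 (ha f hf)
    have hb' := hc b f hf h1 (hb f hf)
    exact ⟨φ, φ a, φ b, a1.mono hle, fun h => h1 (a2 f (hle hf) (h2 f hf) h),
      fun t ht => a1.conj ha' (hle ht), fun t ht => a1.conj hb' (hle ht), a1 _ ha' _ ha',
      a1 _ hb' _ hb'⟩
  fin H hH := by
    obtain ⟨c, c1, c2, hle, -⟩ := hM H hH
    exact Or.inr ⟨c, c1, c2, hle⟩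

/-- The finite kernel of an elementary subgroup is trivial. -/
theorem F_eq {E : Subgroup G} (L : Lox E) {f : G} (hf : f ∈ L.F) : f = 1 := by
  obtain ⟨m, hm, h⟩ := exists_pow_commute L.F_fin (g := L.x) (fun t ht => L.F_conj L.x_mem ht) hf
  exact hM.comm (fun h1 => L.x_not_fin (h1.of_pow (by omega))) (finOrder_of_mem L.F_fin hf) h

/-- An element of finite order of the elementary subgroup of `g` is trivial or inverts `g`. -/
theorem inverts {g e : G} (hg : ¬ IsOfFinOrder g) (L : Lox (Ec g)) (he : e ∈ Ec g)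
    (hf : IsOfFinOrder e) : e = 1 ∨ e * g * e⁻¹ = g⁻¹ := by
  rcases (L.fin_iff he).1 hf with h | h
  · exact Or.inl (hM.F_eq L ⟨he, h⟩)
  · right
    have hg' := self_mem_Ec g
    have h1 : (L.ψ g).s = false := by
      have := hg
      rw [L.fin_iff hg', not_or] at this
      simpa using this.2
    have h2 := (Ec g).mul_mem ((Ec g).mul_mem he hg') ((Ec g).inv_mem he)
    have h3 : e * g * e⁻¹ * g ∈ L.F := ⟨(Ec g).mul_mem h2 hg', by
      rw [L.mul _ h2 _ hg', L.mul.conj he hg']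
      ext
      · simp [h1]
      · simp [h1, h]⟩
    exact eq_inv_of_mul_eq_one_left (hM.F_eq L h3)

end Mal

variable {G X : Type} [Group G] [MulAction G X]

theorem TreeAct.mal {S : GSp G X} {n : ℕ} (hT : TreeAct S n) : Mal G n := by
  intro H hH
  obtain ⟨x, hx⟩ := hT.fix H hH
  obtain ⟨c, c1, c2, hc⟩ := hT.cyc x
  exact ⟨c, c1, c2, fun t ht => hc t (hx t ht),
    fun g t ht h1 h2 => hc g (hT.fix_conj h1 (hx t ht) (hx _ h2))⟩

/-- An element fixing `w` fixes the midpoint between a vertex and its image. -/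
theorem TreeAct.mid {S : GSp G X} {n : ℕ} (hT : TreeAct S n) {g : G} {w y m : X} {k : ℕ}
    (hw : g • w = w) (h1 : S.d y m = k) (h2 : S.d m (g • y) = k) (h3 : S.d y (g • y) = 2 * k) :
    g • m = m := by
  have a1 := S.iso g w y
  have a2 := S.iso g w m
  have a3 := S.iso g y m
  rw [hw] at a1 a2
  have b1 : S.d w m + k = S.d w y := by
    have := hT.hyp w y m (g • y)
    have := hT.hyp m y w (g • y)
    have := S.d_tri w m y
    have := S.d_comm m y
    have := S.d_comm y w
    have := S.d_comm m w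
    have := S.d_comm (g • y) w
    omega
  apply S.eq_of
  have := S.d_comm (g • m) (g • y)
  have := S.thin hT.hyp w (g • y) (g • m) m 0 0 (by omega) (by omega) (by omega) (by omega)
  omega

/-- A product of two elliptic elements with different fixed points has infinite order. -/
theorem TreeAct.not_fin {S : GSp G X} {n : ℕ} (hT : TreeAct S n) {c a : G} {u w : X}
    (hc : c ≠ 1) (ha : a ≠ 1) (hu : c • u = u) (hw : a • w = w) (huw : u ≠ w) :
    ¬ IsOfFinOrder (c * a) := by
  intro hf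
  obtain ⟨y, hy⟩ := hT.fix _ (finite_zpowers.2 hf)
  have h1 := hy _ (Subgroup.mem_zpowers _)
  have h2 : c⁻¹ • y = a • y := by rw [inv_smul_eq_iff, ← mul_smul, h1]
  obtain ⟨k, hk⟩ := hT.par a y
  obtain ⟨m, m1, m2⟩ := S.geo y (a • y) k (by omega)
  have e1 := hT.mid hw m1 (by omega) hk
  have e2 := hT.mid (g := c⁻¹) (w := u) (by rw [inv_smul_eq_iff, hu]) m1 (by rw [h2]; omega)
    (by rw [h2]; exact hk)
  rw [inv_smul_eq_iff] at e2
  exact huw ((hT.uniq hc hu e2.symm).trans (hT.uniq ha hw e1).symm)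

/-- The metric divided by four and rounded up. -/
def GSp.scale (S : GSp G X) : GSp G X where
  d x y := (S.d x y + 3) / 4
  d_self x := by rw [S.d_self]
  d_comm x y := by rw [S.d_comm]
  d_tri x y z := by have := S.d_tri x y z; omega
  eq_of x y h := S.eq_of x y (by omega)
  step x y k h := by
    obtain ⟨z, h1, h2⟩ := S.geo x y (min 4 (S.d x y)) (min_le_right _ _)
    exact ⟨z, by omega, by omega⟩
  iso g x y := by rw [S.iso]

theorem GSp.scale_d (S : GSp G X) (x y : X) : S.scale.d x y = (S.d x y + 3) / 4 := rfl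

theorem GSp.scale_tau (S : GSp G X) [Nonempty X] (g : G) : S.tau g / 4 ≤ S.scale.tau g := by
  obtain ⟨x⟩ := ‹Nonempty X›
  refine S.scale.le_tau g x _ 0 fun k => ⟨k, le_rfl, ?_⟩
  have h1 := S.tau_le g x k
  have h2 : S.d x (g ^ k • x) ≤ 4 * S.scale.d x (g ^ k • x) := by rw [S.scale_d]; omega
  have h3 : (S.d x (g ^ k • x) : ℝ) ≤ 4 * S.scale.d x (g ^ k • x) := by exact_mod_cast h2
  linarith

theorem TreeAct.lev_scale {S : GSp G X} {n : ℕ} (hT : TreeAct S n) {k : ℕ} (hn : n < 2 * 2 ^ k)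
    (hk : 100000000000000000000000000000000000000000000000 ≤ 2 ^ k) : Lev S.scale n (2 ^ k) := by
  have hL := hT.lev hn hk
  have := hT.ne
  refine ⟨⟨hT.ne, fun w x y z => ?_, fun x => ?_, hT.stab, fun g hg => ?_, hT.fix, hL.pre.alg,
    hL.pre.even, hL.pre.npos⟩, fun x y hxy => ?_, hL.pow, hk⟩
  · have := hT.hyp w x y z
    simp only [S.scale_d]
    omega
  · refine (S.ball_finite hT.lf x 4).subset fun y hy => ?_
    have : (S.d x y + 3) / 4 ≤ 1 := hy
    show S.d x y ≤ 4
    omega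
  · have := S.scale_tau g
    have := hT.tau_ge hg
    push_cast; linarith
  · rw [S.scale_d] at hxy
    have h1 := hL.pre.overlap hL.pre.hyp (hL.acyl.mono (by norm_num)) 24000000 x y (by omega)
    refine h1.mono fun g hg => ?_
    have a1 : (S.d x (g • x) + 3) / 4 ≤ 6000000 := hg.1
    have a2 : (S.d y (g • y) + 3) / 4 ≤ 6000000 := hg.2
    exact ⟨by omega, by omega⟩

end Pool.Agent.Lib.OCn
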