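import Pool.Agent.Lib.OC75.Mal

/-! A small cancellation step with varying exponents on torsion free elementary subgroups. -/

namespace Pool.Agent.Lib.OCn

variable {G X : Type} [Group G] [MulAction G X]

/-- Torsion free members of the family of short elementary subgroups. -/
def Apo (S : GSp G X) : Type := {v : Apx S // ∀ e ∈ v.1, IsOfFinOrder e → e = 1}

instance (S : GSp G X) : MulAction G (Apo S) where
  smul g v := ⟨g • v.1, fun e he hf => by
    have h1 := v.2 _ (Apx.mem_smul.1 he) (by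
      have := (finOrder_conj (g := g⁻¹)).2 hf
      rwa [inv_inv] at this)
    calc e = g * (g⁻¹ * e * g) * g⁻¹ := by group
      _ = 1 := by rw [h1]; group⟩
  one_smul v := Subtype.ext (one_smul G v.1)
  mul_smul a b v := Subtype.ext (mul_smul a b v.1)

theorem Apo.smul_val {S : GSp G X} (g : G) (v : Apo S) : (g • v).1 = g • v.1 := rfl

theorem Apo.eq_zpow {S : GSp G X} {v : Apo S} (L : Lox v.1.1) {e : G} (he : e ∈ v.1.1) :
    e = L.x ^ (L.ψ e).a := by
  have h1 : (L.ψ e).s = false := by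
    rcases hs : (L.ψ e).s
    · rfl
    · have := v.2 e he ((L.fin_iff he).2 (Or.inr hs))
      rw [this, L.mul.one] at hs
      simp at hs
  have h2 := L.decomp ⟨he, h1⟩
  exact (inv_mul_eq_one.1 (v.2 _ h2.1 (finOrder_of_mem L.F_fin h2))).symm

theorem Apo.mem_K {S : GSp G X} {v : Apo S} (L : Lox v.1.1) {p : ℕ} {k : G} :
    k ∈ v.1.K p ↔ ∃ j : ℤ, k = L.x ^ (p * j) := by
  have : v.1.K p = Subgroup.zpowers (L.x ^ p) := by
    apply le_antisymm
    · rw [Apx.K, Subgroup.closure_le]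
      rintro _ ⟨e, he, rfl⟩
      refine ⟨(L.ψ e).a, ?_⟩
      simp only
      nth_rewrite 2 [Apo.eq_zpow L he]
      rw [← zpow_natCast, ← zpow_natCast, ← zpow_mul, ← zpow_mul, mul_comm]
    · rw [Subgroup.zpowers_le]
      exact Subgroup.subset_closure ⟨_, L.x_mem, rfl⟩
  rw [this, Subgroup.mem_zpowers_iff]
  simp only [zpow_mul, zpow_natCast, eq_comm]

/-- A nonzero residue has a multiple in the middle third. -/
theorem exists_third {r : ℕ} (hr : 0 < r) {a : ℤ} (h : ¬ (r : ℤ) ∣ a) :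
    ∃ c : ℤ, ∀ j : ℤ, (r : ℤ) ≤ 3 * |(r : ℤ) * j + a * c| := by
  obtain ⟨k, hk⟩ := Int.gcd_dvd_right a r
  have h1 := Int.gcd_eq_gcd_ab a r
  have h2 := Int.gcd_dvd_left a r
  have h3 : (0 : ℤ) < Int.gcd a r := by
    exact_mod_cast Int.gcd_pos_of_ne_zero_right a (show (r : ℤ) ≠ 0 by omega)
  generalize (Int.gcd a r : ℤ) = d at *
  have h4 : 2 ≤ k := by
    by_contra h5
    have h6 : 0 < k := by
      by_contra h7
      nlinarith
    obtain rfl : k = 1 := by omega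
    exact h (by rw [hk, mul_one]; exact h2)
  refine ⟨Int.gcdA a r * (k / 2), fun j => ?_⟩
  have h5 : (r : ℤ) * j + a * (Int.gcdA a r * (k / 2)) =
      d * (k / 2) + r * (j - Int.gcdB a r * (k / 2)) := by
    rw [h1]; ring
  rw [h5]
  generalize j - Int.gcdB a r * (k / 2) = i
  have h6 : 2 * (d * (k / 2)) ≤ r := by
    have : 2 * (k / 2) ≤ k := by omega
    nlinarith
  have h7 : (r : ℤ) ≤ 3 * (d * (k / 2)) := by
    have : k ≤ 3 * (k / 2) := by omega
    nlinarith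
  generalize d * (k / 2) = t at *
  rcases le_or_gt 0 i with h8 | h8
  · have : 0 ≤ (r : ℤ) * i := by positivity
    have := le_abs_self (t + r * i)
    omega
  · have : (r : ℤ) * i ≤ -r := by nlinarith
    have := neg_le_abs (t + r * i)
    omega

/-- The hypotheses of the step with varying exponents. -/
structure OddSt (S : GSp G X) (n N : ℕ) (p : Apo S → ℕ) : Prop where
  lev : Lev S n N
  mal : Mal G n
  inv : ∀ (g : G) v, p (g • v) = p v
  ple : ∀ v, p v ≤ n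
  lt : n < 2 * N
  big : ∀ v, 100000000000000000000000000000000000000000000000 ≤ p v
  low : ∀ g : G, ¬ IsOfFinOrder g → 1 ≤ 4 * S.tau g

namespace OddSt

variable {S : GSp G X} {n N : ℕ} {p : Apo S → ℕ} (hO : OddSt S n N p)
include hO

theorem pos (v : Apo S) : 0 < p v := by have := hO.big v; omega

theorem smul_eq_iff {v : Apo S} {g : G} : g • v = v ↔ g ∈ v.1.1 := by
  rw [← hO.lev.smul_eq_iff, ← Apo.smul_val]
  exact Subtype.ext_iff

theorem spin (v : Apo S) (k : G) (hk : k ∈ v.1.K (p v)) (h1 : k ≠ 1) (y : X) :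
    100000 * 300000000000000 ≤ S.d y (k • y) := by
  obtain ⟨L⟩ := hO.lev.lox v.1
  obtain ⟨j, rfl⟩ := (Apo.mem_K L).1 hk
  have h2 := hO.lev.abs_le L (L.x_P (p v * j)) y
  rw [L.ψ_zpow, abs_mul] at h2
  have h3 : j ≠ 0 := by rintro rfl; simp at h1
  have h4 := Int.one_le_abs h3
  have h5 := hO.big v
  have h6 : (p v : ℤ) ≤ |(p v : ℤ)| * |j| := by
    rw [Nat.abs_cast]; nlinarith
  omega

/-- The cone-off over the torsion free family. -/
noncomputable def cone : Cone S (Apo S) where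
  δ := 200
  α := 850000
  Δ := 200000000000000
  r := 300000000000000
  Y v := v.1.Y
  ne v := hO.lev.Y_ne v.1
  Y_smul g v := hO.lev.Y_smul g v.1
  hyp := hO.lev.pre.hyp
  qc v := hO.lev.Y_qc v.1
  ovl v w h := hO.lev.Y_ovl v.1 w.1 fun e => h (Subtype.ext e)
  big := by norm_num

/-- The rotation system. -/
noncomputable def rot : Rot G (X ⊕ Apo S) :=
  hO.cone.rot (fun v => v.1.K (p v)) (fun v _ hk => hO.smul_eq_iff.2 (v.1.K_le _ hk))
    (fun g v k hk => by rw [hO.inv]; exact Apx.K_conj (p v) g v.1 k hk)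
    (fun v k hk h1 y _ => hO.spin v k hk h1 y)

theorem cone_r : hO.cone.r = 300000000000000 := rfl

theorem rot_θ : hO.rot.θ = 15000000000000000 := by
  have : hO.rot.θ = 50 * hO.cone.r := rfl
  rw [this, hO.cone_r]

theorem fix_iff {v : Apo S} {g : G} : g • (Sum.inr v : X ⊕ Apo S) = .inr v ↔ g ∈ v.1.1 := by
  rw [← hO.smul_eq_iff]
  exact Sum.inr_injective.eq_iff

theorem ang_ge {v : Apo S} {z : X ⊕ Apo S} (hz : z ≠ .inr v) {e : G} (he : e ∈ v.1.1) :
    ∃ a : X, S.d a (e • a) ≤ hO.rot.ang (.inr v) z (e • z) := by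
  obtain ⟨a, ha⟩ := hO.cone.Pr_ne v z
  have h2 := hO.cone.Pr_smul e ha
  rw [hO.smul_eq_iff.2 he] at h2
  exact ⟨a, hO.cone.le_ang hz (Rot.smul_ne (hO.fix_iff.2 he) hz) ha h2⟩

theorem eb (v : Apo S) (z : X ⊕ Apo S) (hz : z ≠ .inr v) (H : Subgroup G) (hle : H ≤ v.1.1)
    (h : ∀ e ∈ H, ∃ ρ ∈ v.1.K (p v), hO.rot.ang (.inr v) z (ρ • e • z) ≤ 4 * hO.rot.θ) :
    H ≤ v.1.K (p v) := by
  obtain ⟨L⟩ := hO.lev.lox v.1
  intro e he
  have e0 := Apo.eq_zpow L (hle he)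
  generalize (L.ψ e).a = a at e0
  by_cases hd : (p v : ℤ) ∣ a
  · obtain ⟨j, rfl⟩ := hd
    exact (Apo.mem_K L).2 ⟨j, e0⟩
  exfalso
  obtain ⟨c, hc⟩ := exists_third (hO.pos v) hd
  obtain ⟨ρ, hρ, h1⟩ := h _ (H.zpow_mem he c)
  obtain ⟨j, rfl⟩ := (Apo.mem_K L).1 hρ
  rw [← mul_smul, e0, ← zpow_mul, ← zpow_add, hO.rot_θ] at h1
  obtain ⟨y, h2⟩ := hO.ang_ge hz (L.x_P (p v * j + a * c)).1
  have h3 := hO.lev.abs_le L (L.x_P (p v * j + a * c)) y
  rw [L.ψ_zpow] at h3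
  simp only at h3
  have h5 := hc j
  have := hO.big v
  omega

theorem Y_cocompact (v : Apo S) {x : X} (hx : x ∈ v.1.Y) {y : X} (hy : y ∈ v.1.Y) :
    ∃ ρ ∈ v.1.K (p v), S.d x (ρ • y) ≤ p v * 120001 + 360601 := by
  obtain ⟨L⟩ := hO.lev.lox v.1
  obtain ⟨j, hj⟩ := hO.lev.Y_close L hx hy
  have hN : (0 : ℤ) < p v := by exact_mod_cast hO.pos v
  generalize p v = r at hN ⊢
  refine ⟨L.x ^ (r * -(j / r)), (Apo.mem_K L).2 ⟨_, rfl⟩, ?_⟩
  rw [← S.iso (L.x ^ ((r : ℤ) * -(j / r))), ← mul_smul, ← zpow_add] at hj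
  have e : (r : ℤ) * -(j / r) + j = ((j % r).toNat : ℤ) := by
    have := Int.mul_ediv_add_emod j r
    rw [Int.toNat_of_nonneg (Int.emod_nonneg _ hN.ne')]; linarith
  rw [e, zpow_natCast] at hj
  have h1 := S.disp_pow L.x x (j % r).toNat
  have h2 : (j % r).toNat * S.d x (L.x • x) ≤ r * 120001 := by
    apply Nat.mul_le_mul _ (hO.lev.Y_x L hx)
    have := Int.emod_lt_of_pos j hN
    omega
  have := S.d_tri x (L.x ^ (j % r).toNat • x) (L.x ^ ((r : ℤ) * -(j / r)) • y)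
  have := S.d_comm (L.x ^ (j % r).toNat • x) (L.x ^ ((r : ℤ) * -(j / r)) • y)
  omega

theorem ext : hO.rot.Ext where
  ea u hu T hT h1 z hz _ := by
    obtain ⟨v, rfl⟩ := Cone.ap_eq hu
    refine ⟨1, one_smul _ _, fun e _ => by simp, fun t ht => ?_⟩
    rw [v.2 t (hO.fix_iff.1 (h1 t ht)) (finOrder_of_mem hT ht)]
    have := hO.rot.ang_self hu hz
    simp only [one_smul]; omega
  eb u hu z hz H h1 h2 := by
    obtain ⟨v, rfl⟩ := Cone.ap_eq hu
    have h3 := hO.eb v z hz H (fun t ht => hO.fix_iff.1 (h1 t ht)) h2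
    refine ⟨⊥, by simp, fun a ha => by rw [Subgroup.mem_bot.1 ha, one_smul], fun e he => ?_⟩
    exact ⟨e⁻¹, (v.1.K (p v)).inv_mem (h3 he), by simp⟩
  lf1 a ha := by
    obtain ⟨x, rfl⟩ := Cone.pt_eq ha
    have h1 := (S.ball_finite hO.lev.pre.lf x 300000000000000).image (Sum.inl : X → X ⊕ Apo S)
    have h2 : {v : Apo S | x ∈ v.1.Y}.Finite := by
      refine Set.Finite.of_finite_image (f := fun v : Apo S => v.1.1)
        (((hO.lev.pre.proper x 120001).image Ec).subset ?_)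
        (Subtype.val_injective.comp Subtype.val_injective).injOn
      rintro _ ⟨v, hv, rfl⟩
      obtain ⟨L⟩ := hO.lev.lox v.1
      exact ⟨L.x, hO.lev.Y_x L hv, hO.lev.Ec_x L⟩
    refine (h1.union (h2.image Sum.inr)).subset fun z hz => ?_
    have := hO.cone.d_le_one.1 hz
    rcases z with y | v
    · exact Or.inl ⟨y, this, rfl⟩
    · exact Or.inr ⟨v, this, rfl⟩
  lf2 u hu := by
    obtain ⟨v, rfl⟩ := Cone.ap_eq hu
    obtain ⟨x, hx⟩ := hO.lev.Y_ne v.1
    refine ⟨_, ((S.ball_finite hO.lev.pre.lf x (p v * 120001 + 360601)).image Sum.inl).insert (.inr v),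
      fun z hz => ?_⟩
    have := hO.cone.d_le_one.1 hz
    rcases z with y | w
    · obtain ⟨ρ, hρ, h⟩ := hO.Y_cocompact v hx this
      exact ⟨ρ, hρ, Or.inr ⟨_, h, rfl⟩⟩
    · have e : v = w := this
      exact ⟨1, Subgroup.one_mem _, Or.inl (by simp [e])⟩
  lf3 a ha := by
    obtain ⟨x, rfl⟩ := Cone.pt_eq ha
    exact (hO.lev.pre.stab x).subset fun g hg => Sum.inl_injective hg
  lf4 u hu := by
    obtain ⟨v, rfl⟩ := Cone.ap_eq hu
    obtain ⟨x, hx⟩ := hO.lev.Y_ne v.1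
    refine ⟨_, hO.lev.pre.proper x (p v * 120001 + 360601), fun e he => ?_⟩
    obtain ⟨ρ, hρ, h⟩ := hO.Y_cocompact v hx (hO.lev.Y_E (hO.fix_iff.1 he) hx)
    exact ⟨ρ, hρ, by rwa [← mul_smul] at h⟩
  fix H hH := by
    obtain ⟨x, hx⟩ := hO.lev.pre.fix H hH
    exact ⟨.inl x, fun h => h, fun h hh => congrArg Sum.inl (hx h hh)⟩

variable {Q Y : Type} [Group Q] [MulAction Q Y] (q : Quo hO.rot Q Y)

theorem stab_iff {v : Apo S} {h : Q} :
    h • q.p (.inr v) = q.p (.inr v) ↔ h ∈ v.1.1.map q.π := by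
  constructor
  · intro h1
    obtain ⟨g, rfl, h2⟩ := q.exists_lift h h1
    exact ⟨g, hO.fix_iff.1 h2, rfl⟩
  · rintro ⟨g, hg, rfl⟩
    rw [q.p_smul, hO.fix_iff.2 hg]

theorem two_of {v : Apo S} {b : Y} (hb : b ≠ q.p (.inr v)) {h : Q}
    (h1 : h • q.p (.inr v) = q.p (.inr v)) (h2 : h • b = b) : h = 1 := by
  obtain ⟨A, a1, a2, a3⟩ := q.stab_two hO.ext (v := .inr v) trivial hb
  obtain ⟨t, ht, rfl⟩ := a3 h h1 h2
  rw [v.2 t (hO.fix_iff.1 (a2 t ht)) (finOrder_of_mem a1 ht), map_one]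

theorem π_pow {v : Apo S} {e : G} (he : e ∈ v.1.1) : q.π e ^ p v = 1 := by
  rw [← map_pow]
  exact q.π_rot (u := .inr v) trivial (Subgroup.subset_closure ⟨e, he, rfl⟩)

include q in
theorem malQ : Mal Q n := by
  intro H hH
  rcases q.lift_or_apex hO.ext H hH with ⟨A, a1, a2⟩ | ⟨u, hu, h⟩
  · obtain ⟨c, c1, c2, c3, c4⟩ := hO.mal A a1
    refine ⟨q.π c, q.π.isOfFinOrder c1,
      (Nat.le_of_dvd c1.orderOf_pos (orderOf_map_dvd q.π c)).trans c2, a2.trans ?_,
      fun g t ht h1 h2 => ?_⟩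
    · rw [← MonoidHom.map_zpowers]
      exact Subgroup.map_mono c3
    obtain ⟨t, ht', rfl⟩ := a2 ht
    obtain ⟨t', ht'', e⟩ := a2 h2
    obtain ⟨g', h3, h4 | ⟨_, ⟨u, hu, rfl⟩, h4⟩⟩ := q.conj_lift hO.ext A A a1 a1 g
    · rw [← h4, ← MonoidHom.map_zpowers]
      exact ⟨g', c4 g' t ht' (fun h0 => h1 (by rw [h0, map_one])) (by
        rw [h3 t ht' t' ht'' e]; exact ht''), rfl⟩
    · obtain ⟨v, rfl⟩ := Cone.ap_eq hu
      obtain ⟨a, ha, h5⟩ := hO.ext.fix A a1
      exact absurd (hO.two_of q (b := q.p a)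
        (q.ne_of_pt (fun h => ha (q.Ap_p.1 h)) (q.Ap_p.2 trivial)) (h4 t ht' ⟨t', ht'', e⟩)
        (by rw [q.p_smul, h5 t ht'])) h1
  · obtain ⟨v, rfl⟩ := Cone.ap_eq hu
    obtain ⟨L⟩ := hO.lev.lox v.1
    have h0 := hO.π_pow q L.x_mem
    have hle : v.1.1.map q.π ≤ Subgroup.zpowers (q.π L.x) := by
      rintro _ ⟨e, he, rfl⟩
      rw [Apo.eq_zpow L he, map_zpow]
      exact Subgroup.zpow_mem_zpowers _ _
    refine ⟨q.π L.x, isOfFinOrder_iff_pow_eq_one.2 ⟨p v, hO.pos v, h0⟩,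
      (orderOf_le_of_pow_eq_one (hO.pos v) h0).trans (hO.ple v),
      fun t ht => hle ((hO.stab_iff q).1 (h t ht)), fun g t ht h1 h2 => ?_⟩
    by_cases h3 : g⁻¹ • q.p (.inr v) = q.p (.inr v)
    · simpa using (Subgroup.zpowers _).inv_mem (hle ((hO.stab_iff q).1 h3))
    · refine absurd (hO.two_of q h3 (h t ht) ?_) h1
      have := h _ h2
      rw [mul_smul, mul_smul] at this
      rw [eq_inv_smul_iff, this]

theorem Φ_pt (x y : X) : hO.rot.Φ (.inl x) (.inl y) = S.d x y := hO.cone.Φ_pt x y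

theorem d_pt (x y : X) (j : ℕ) (h : S.d x y ≤ j * 300000000000000) :
    hO.rot.d (.inl x) (.inl y) ≤ j := hO.cone.d_pt x y j (by rwa [hO.cone_r])

theorem hypQ : q.sp.Hyp 200 := (q.hyp (δ := 44) hO.cone.sp_hyp).mono (by norm_num)

theorem injQ (g : Q) (hg : ¬ IsOfFinOrder g) :
    1 ≤ ((2000000000000000000000000000 : ℕ) : ℝ) * q.sp.tau g := by
  have := q.nonempty hO.ext
  by_contra hlt
  push Not at hlt
  obtain ⟨x, hx⟩ := q.sp.exists_common (hO.hypQ q) g 2000000000000000000000000000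
  obtain ⟨i, hi⟩ := q.sp.exists_far (q.lf hO.ext) (q.stab hO.ext) hg x 200000000000000
  have hU : ∀ j, j ≤ 2000000000000000000000000000 → g ^ j ∈ q.sp.U 2000 x (g ^ i • x) := by
    intro j hj
    have h1 : (q.sp.d x (g ^ j • x) : ℝ) ≤ 2000 := by
      have := hx j hj; push_cast at this hlt; linarith
    have h2 : q.sp.d x (g ^ j • x) ≤ 2000 := by exact_mod_cast h1
    refine ⟨h2, ?_⟩
    rwa [← mul_smul, ← pow_add, add_comm, pow_add, mul_smul, q.sp.iso]
  rcases q.dich 2000 1000000 (by norm_num) x (g ^ i • x) (by omega) with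
    ⟨a, b, ha, -, -, h⟩ | ⟨w, -, h, -⟩
  · obtain ⟨g1, e1, e2, -⟩ := h _ (hU 1 (by norm_num))
    rw [pow_one] at e1
    have hθ := hO.rot.θ_pos
    have key : ∀ j, j ≤ 2000000000000000000000000000 →
        (∀ u, hO.rot.Ap u → hO.rot.ang u a (g1 ^ j • a) ≤ 378 * hO.rot.θ) ∧
        hO.rot.Φ a (g1 ^ j • a) ≤ (35 * 2000 + 4) * (380 * hO.rot.θ) := by
      intro j
      induction j with
      | zero =>
        intro _
        rw [pow_zero, one_smul, hO.rot.Φ_self]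
        refine ⟨fun u hu => ?_, Nat.zero_le _⟩
        have := hO.rot.ang_self hu (hO.rot.ne_of_pt ha hu)
        omega
      | succ j ih =>
        intro hj
        obtain ⟨g2, f1, f2, f3, -⟩ := h _ (hU _ hj)
        rw [← q.lift_eq ha (g := g2) (g' := g1 ^ (j + 1)) (by rw [f1, map_pow, e1]) f2
          (t' := 756 * hO.rot.θ) (fun u hu => ?_) (by omega)]
        · exact ⟨f2, f3⟩
        · have h1 := (ih (by omega)).1 u hu
          have h7 := e2 _ (hO.rot.Ap_smul (g1 ^ j)⁻¹ u hu)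
          rw [hO.rot.ang_inv] at h7
          have := hO.rot.ang_tri u a (g1 ^ j • a) (g1 ^ j • g1 • a) hu (hO.rot.ne_of_pt ha hu)
            (hO.rot.ne_of_pt (hO.rot.pt_smul _ ha) hu)
            (hO.rot.ne_of_pt (hO.rot.pt_smul _ (hO.rot.pt_smul _ ha)) hu)
          rw [pow_succ, mul_smul]; omega
    obtain ⟨a, rfl⟩ := Cone.pt_eq ha
    have h2 := (key _ le_rfl).2
    rw [Sum.smul_inl, hO.Φ_pt, hO.rot_θ] at h2
    have h3 := S.tau_le g1 a 2000000000000000000000000000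
    generalize S.d a (g1 ^ 2000000000000000000000000000 • a) = d at h2 h3
    have h4 : (d : ℝ) ≤ 1000000000000000000000000 := by
      have : d ≤ 1000000000000000000000000 := by omega
      exact_mod_cast this
    have h5 := hO.low g1 fun hf => hg (e1 ▸ q.π.isOfFinOrder hf)
    push_cast at h3
    linarith
  · rcases h g (by simpa using hU 1 (by norm_num)) with h1 | h1
    · exact hg (finOrder_of_mem (H := MulAction.stabilizer Q w) (q.stab hO.ext w) h1)
    · have := q.sp.le_tau g w 1 0 fun k => ⟨k, le_rfl, by simpa using h1 k⟩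
      push_cast at hlt; linarith

theorem preQ : Pre q.sp 200 2000000000000000000000000000 n N where
  ne := q.nonempty hO.ext
  hyp := hO.hypQ q
  lf := q.lf hO.ext
  stab := q.stab hO.ext
  inj := hO.injQ q
  fix H hH := by
    rcases q.lift_or_apex hO.ext H hH with ⟨A, a1, a2⟩ | ⟨u, -, h⟩
    · obtain ⟨a, -, h⟩ := hO.ext.fix A a1
      refine ⟨q.p a, fun g hg => ?_⟩
      obtain ⟨t, ht, rfl⟩ := a2 hg
      rw [q.p_smul, h t ht]
    · exact ⟨_, h⟩
  alg := by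
    obtain ⟨k, hk⟩ := hO.lev.pow
    have := hO.lt
    rw [hk] at this ⊢
    exact (hO.malQ q).alg this
  even := hO.lev.pre.even
  npos := hO.lev.pre.npos

theorem acylQ : q.sp.Acyl 6000000 200000000000000 := by
  intro x y hxy
  rcases q.dich 6000000 199999795999996 (by norm_num) x y (by omega) with
    ⟨a, b, ha, hb, hab, h⟩ | ⟨w, -, h, h'⟩
  · obtain ⟨a, rfl⟩ := Cone.pt_eq ha
    obtain ⟨b, rfl⟩ := Cone.pt_eq hb
    have h1 := hO.lev.pre.overlap hO.lev.pre.hyp (hO.lev.acyl.mono (by norm_num))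
      1197000022800000000000000000 a b (by
        by_contra hlt
        have := hO.d_pt a b 199999795999995 (by omega)
        omega)
    refine (hO.lev.pre.elem_map q.π h1).mono fun g hg => ?_
    obtain ⟨g', e1, -, e2, e3⟩ := h g hg
    rw [Sum.smul_inl, hO.Φ_pt, hO.rot_θ] at e2 e3
    exact ⟨g', ⟨by omega, by omega⟩, e1⟩
  · have hE : Elem (MulAction.stabilizer Q w : Set Q) := Or.inl ⟨_, q.stab hO.ext w, le_rfl⟩
    by_cases hex : ∃ g ∈ q.sp.U 6000000 x y, g • w ≠ w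
    · obtain ⟨g, hg, hne⟩ := hex
      have h1 := (h g hg).resolve_left hne
      have h2 : ¬ IsOfFinOrder g := fun hf => by
        obtain ⟨m, hm, e⟩ := isOfFinOrder_iff_pow_eq_one.1 hf
        have := h1 m
        rw [e, one_smul, q.sp.d_self] at this; omega
      exact Or.inr ⟨g, h2, fun t ht => (hO.preQ q).mem_Ec_of_comm h2 hE fun j hj => h' g hg t ht j hj⟩
    · push Not at hex
      exact hE.mono hex

theorem levQ : Lev q.sp n N := ⟨hO.preQ q, hO.acylQ q, hO.lev.pow, hO.lev.big⟩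

theorem order_eq {g : G} (hg : IsOfFinOrder g) : orderOf (q.π g) = orderOf g := by
  refine Nat.dvd_antisymm (orderOf_map_dvd _ _) (orderOf_dvd_of_pow_eq_one ?_)
  refine q.inj_fin hO.ext (finite_zpowers.2 hg) (Subgroup.npow_mem_zpowers g _)
    (Subgroup.one_mem _) ?_
  rw [map_pow, pow_orderOf_eq_one, map_one]

include q in
theorem exists_order (v : Apo S) : ∃ g : Q, orderOf g = p v := by
  obtain ⟨L⟩ := hO.lev.lox v.1
  refine ⟨q.π L.x, Nat.dvd_antisymm (orderOf_dvd_of_pow_eq_one (hO.π_pow q L.x_mem)) ?_⟩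
  have h1 := pow_orderOf_eq_one (q.π L.x)
  rw [← map_pow] at h1
  obtain ⟨j, hj⟩ := (Apo.mem_K L).1 (hO.rot.mem_K_of_fix (v := .inr v) trivial ((q.π_ker _).1 h1)
    (hO.fix_iff.2 (v.1.1.pow_mem L.x_mem _)))
  rw [← zpow_natCast] at hj
  have h2 := injective_zpow_iff_not_isOfFinOrder.2 L.x_not_fin hj
  exact Int.natCast_dvd_natCast.1 ⟨j, h2⟩

end OddSt

end Pool.Agent.Lib.OCn
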