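import Pool.Agent.Lib.MP_de4dbb_al.Limit

/-! Short loxodromic elements; products of two elliptic elements. -/

namespace Pool.Agent.Lib.OCn

variable {G X : Type} [Group G] [MulAction G X]

/-- A loxodromic element of bounded displacement stays loxodromic or gets order dividing `N`. -/
theorem Lev.short {S : GSp G X} {n N : ℕ} (hL : Lev S n N) {Q Y : Type} [Group Q] [MulAction Q Y]
    (q : Quo hL.rot Q Y) {g : G} (hg : ¬ IsOfFinOrder g) {x : X}
    (hd : S.d x (g • x) ≤ 10000000000000000) (hf : IsOfFinOrder (q.π g)) : q.π g ^ N = 1 := by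
  have := hL.pre.ne
  have hT : S.tau g ≤ (10000000000000000 : ℕ) := (S.tau_le_one g x).trans (by exact_mod_cast hd)
  obtain ⟨a, ha⟩ := S.exists_axis hL.pre.hyp g (hL.pre.tau_pos hg)
  have ha' : ∀ j : ℕ, (S.d a (g ^ j • a) : ℝ) ≤ j * S.tau g + (13830 : ℕ) := by
    intro j; have := ha j; push_cast at this ⊢; linarith
  obtain ⟨m, hm, h1⟩ := isOfFinOrder_iff_pow_eq_one.1 hf
  have hpt : ¬ hL.rot.Ap (.inl a) := fun h => h
  by_cases hs : ∀ u, hL.rot.Ap u → hL.rot.ang u (.inl a) (g ^ m • .inl a) ≤ 1000 * hL.rot.θ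
  · have hθ := hL.rot.θ_pos
    have := q.lift_eq hpt (g := g ^ m) (g' := 1) (by rw [map_pow, h1, map_one]) hs
      (t' := hL.rot.θ) (fun u hu => by
        rw [one_smul]; exact hL.rot.ang_self hu (hL.rot.ne_of_pt hpt hu)) (by omega)
    exact absurd (isOfFinOrder_iff_pow_eq_one.2 ⟨m, hm, this⟩) hg
  push Not at hs
  obtain ⟨u, hu, h2⟩ := hs
  obtain ⟨v, rfl⟩ := Cone.ap_eq hu
  obtain ⟨y, hy⟩ := hL.cone.exists_near v a
  obtain ⟨z, hz⟩ := hL.cone.exists_near v (g ^ m • a)
  have h3 : hL.rot.ang (.inr v) (.inl a) (.inl (g ^ m • a)) ≤ _ :=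
    hL.cone.ang_le (by simp) (by simp) ⟨a, rfl, hy⟩ ⟨_, rfl, hz⟩
  rw [Sum.smul_inl, hL.rot_θ] at h2
  rw [hL.cone_r] at h3
  have h4 : S.d a y + S.d y z + S.d z (g ^ m • a) ≤ S.d a (g ^ m • a) + (4 * 850000 + 5 * 200 + 2) :=
    (hy.two hz (by
      show 2 * 850000 + 3 * 200 + 1 < _
      omega)).2
  have h5 : S.d a (g • a) ≤ 10000000000013830 := by
    have := ha' 1
    have h6 : (S.d a (g • a) : ℝ) ≤ 10000000000013830 := by
      rw [pow_one] at this; push_cast at this hT; linarith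
    exact_mod_cast h6
  have key : ∀ w, S.d a w + S.d w (g ^ m • a) ≤ S.d a (g ^ m • a) + 3401002 →
      S.d w (g • w) ≤ 40000000000000000 := by
    intro w hw
    obtain ⟨j, hj⟩ := S.near_orbit hL.pre.hyp g a w 13830 3401002 _ hT ha' m (by omega) hw
    have e1 := S.disp_move g (g ^ j • a) w
    rw [← mul_smul, ← pow_succ', S.d_pow_add, pow_one, S.d_comm (g ^ j • a)] at e1
    omega
  have t1 := S.d_tri y z (g ^ m • a)
  have t2 := S.d_tri a y z
  obtain ⟨L⟩ := hL.lox v
  have a1 := hL.Y_x L hy.1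
  have a2 := hL.Y_x L hz.1
  have m1 : g ∈ S.U 40000000000000000 y z := ⟨key y (by omega), key z (by omega)⟩
  have m2 : L.x ∈ S.U 40000000000000000 y z := ⟨by omega, by omega⟩
  rcases hL.pre.overlap hL.pre.hyp (hL.acyl.mono (by norm_num)) 40000000000000000 y z (by omega) with
    ⟨H, h6, h7⟩ | ⟨t, h6, h7⟩
  · exact absurd (finOrder_of_mem h6 (h7 m1)) hg
  · have h8 : g ∈ v.1 := by
      rw [← hL.Ec_x L, hL.pre.Ec_eq h6 L.x_not_fin (h7 m2)]
      exact h7 m1
    rw [← map_pow]
    exact hL.π_K q (Subgroup.subset_closure ⟨g, h8, rfl⟩)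

namespace GSp

variable (S : GSp G X) {δ : ℕ}

/-- An element that almost fixes `x` and moves a point of a geodesic `[x, y]` moves `y` a lot. -/
theorem diverge (hδ : S.Hyp δ) (h : G) {x y z : X} {ε : ℕ} (h1 : S.d x z + S.d z y = S.d x y)
    (h2 : S.d x (h • x) ≤ ε) (h3 : 4 * ε + 2 * δ < S.d z (h • z)) :
    2 * S.d z y ≤ S.d y (h • y) + ε := by
  have a1 := S.iso h x z
  have a2 := S.iso h z y
  have a3 := S.iso h x y
  generalize h • x = x' at *
  generalize h • y = y' at *
  generalize h • z = z' at *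
  have b1 := hδ x z y y'
  have b2 := hδ x z y' z'
  have := S.d_tri x x' y'
  have := S.d_tri x' x y'
  have := S.d_tri x x' z'
  have := S.d_tri x' x z'
  have := S.d_comm x x'
  have := S.d_comm y' z'
  omega

/-- Ping-pong: a product of two elements almost fixing far away points is loxodromic. -/
theorem ping (hδ : S.Hyp δ) (g h : G) {x y z w : X} {A : ℕ} (h1 : S.d x z + S.d z y = S.d x y)
    (h2 : S.d y w + S.d w x = S.d y x) (h3 : S.d x z = A) (h4 : S.d y w = A)
    (h5 : 2 * A + 2 * δ + 20 ≤ S.d x y) (g1 : S.d x (g • x) ≤ 2) (g2 : 8 + 2 * δ < S.d z (g • z))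
    (g3 : S.d y (h • y) ≤ 2) (g4 : 8 + 2 * δ < S.d w (h • w)) : ¬ IsOfFinOrder (g * h) := by
  have c0 := S.d_comm x y
  have c1 := S.diverge hδ g h1 g1 g2
  have c2 := S.diverge hδ h h2 g3 g4
  have c3 := S.diverge hδ g⁻¹ (ε := 2) h1 (by rwa [S.disp_inv]) (by rwa [S.disp_inv])
  -- points: `y`, `g h y`, `(g h)^2 y`
  have key : 2 * S.d y ((g * h) • y) ≤ S.d y ((g * h) ^ 2 • y) + (2 * A + 2 * δ + 10) ∧
      2 * A + 3 * δ + 10 < S.d y ((g * h) • y) := by
    have e1 : S.d y ((g * h) ^ 2 • y) = S.d (g⁻¹ • y) (h • g • h • y) := by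
      rw [S.iso_inv, sq, mul_smul, mul_smul, mul_smul]
    have e2 : S.d y ((g * h) • y) = S.d (g⁻¹ • y) (h • y) := by rw [S.iso_inv, mul_smul]
    have e3 : S.d y ((g * h) • y) = S.d (h • y) (h • g • h • y) := by rw [S.iso, mul_smul]
    have e4 : S.d (h • x) (h • g • h • y) = S.d x (g • h • y) := S.iso _ _ _
    have e5 : S.d x (g • h • y) ≤ S.d x y + 4 := by
      have := S.d_tri x (g • x) (g • h • y)
      have := S.d_tri x y (h • y)
      have := S.iso g x (h • y)
      omega
    have e6 : S.d x (g⁻¹ • y) ≤ S.d x y + 2 := by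
      have := S.iso_inv' g x y
      have := S.d_tri (g • x) x y
      have := S.d_comm x (g • x)
      omega
    have e7 := S.iso h x y
    generalize S.d y ((g * h) ^ 2 • y) = d2 at *
    generalize S.d y ((g * h) • y) = d1 at *
    generalize S.d x (g • h • y) = d3 at *
    generalize h • g • h • y = v at *
    generalize g⁻¹ • y = u at *
    generalize h • y = y' at *
    generalize h • x = x' at *
    have b1 := hδ y x u x'
    have b2 := hδ y u v x'
    have := S.d_tri y y' u
    have := S.d_tri u y y'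
    have := S.d_tri y y' v
    have := S.d_tri y' y v
    have := S.d_tri y y' x'
    have := S.d_tri y' y x'
    have := S.d_comm y y'
    have := S.d_comm y u
    have := S.d_comm y' u
    have := S.d_comm y' x'
    have := S.d_comm x' v
    omega
  intro hf
  obtain ⟨m, hm, e⟩ := isOfFinOrder_iff_pow_eq_one.1 hf
  have grow : ∀ i : ℕ, i ≤ S.d y ((g * h) ^ i • y) := by
    intro i
    induction i with
    | zero => exact Nat.zero_le _
    | succ i ih =>
      have := S.chain_pow hδ (g * h) y _ key.1 (by omega) i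
      omega
  have := grow m
  rw [e, one_smul, S.d_self] at this
  omega

end GSp

end Pool.Agent.Lib.OCn
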