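import Pool.Agent.Lib.OC75.Base2
import Pool.Agent.Lib.OC75.Short

/-! Normal subgroups of the limit group. -/

namespace Pool.Agent.Lib.OCn

section

variable {G X : Type} [Group G] [MulAction G X]

/-- A coset of a normal subgroup with a nonelementary set of short elements contains a short
loxodromic element. -/
theorem Lev.exists_lox {S : GSp G X} {n N : ℕ} (hL : Lev S n N) (x : X) {K : Subgroup G}
    (hK : K.Normal) {T : Set G} (hTK : T ⊆ K) (hT : ∀ t ∈ T, S.d x (t • x) ≤ 1) (hE : ¬ Elem T)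
    {c : G} (hc : S.d x (c • x) ≤ 1) :
    ∃ k ∈ K, ¬ IsOfFinOrder (c * k) ∧ S.d x ((c * k) • x) ≤ 10000000000000000 := by
  obtain ⟨a, ha⟩ : ∃ a : G, S.d x (a • x) = 500000000000000 := by
    by_contra h
    push Not at h
    refine hE (Or.inl ⟨Subgroup.closure T, (hL.pre.proper x 499999999999999).subset fun g hg => ?_,
      Subgroup.subset_closure⟩)
    show S.d x (g • x) ≤ _
    induction hg using Subgroup.closure_induction_right with
    | one => rw [one_smul, S.d_self]; omega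
    | mul_right g _ t ht ih =>
      have := S.disp_mul g t x
      have := hT t ht
      have := h (g * t)
      omega
    | mul_inv_cancel g _ t ht ih =>
      have := S.disp_mul g t⁻¹ x
      have := S.disp_inv t x
      have := hT t ht
      have := h (g * t⁻¹)
      omega
  have far : ∀ z, S.d x z = 200000000000000 → ∃ t ∈ T, 6000000 < S.d z (t • z) := by
    intro z hz
    by_contra h
    push Not at h
    exact hE ((hL.acyl x z (by omega)).mono fun t ht => ⟨by have := hT t ht; omega, h t ht⟩)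
  obtain ⟨z, z1, z2⟩ := S.geo x (a • x) 200000000000000 (by omega)
  have c0 := S.d_comm x (a • x)
  obtain ⟨w, w1, w2⟩ := S.geo (a • x) x 200000000000000 (by omega)
  obtain ⟨s, hs, s1⟩ := far z z1
  obtain ⟨t, ht, t1⟩ := far (a⁻¹ • w) (by rwa [S.iso_inv'])
  have t2 := S.disp_conj t a (a⁻¹ • w)
  rw [smul_inv_smul] at t2
  have t3 := S.disp_conj t a x
  have t4 := hT t ht
  have t5 := S.disp_move (a * t * a⁻¹) (a • x) x
  have hk := hK.conj_mem t (hTK ht) a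
  have key : ∀ g : G, S.d x (g • x) ≤ 2 → 1000 < S.d z (g • z) →
      ¬ IsOfFinOrder (g * (a * t * a⁻¹)) ∧
        S.d x ((g * (a * t * a⁻¹)) • x) ≤ 10000000000000000 := fun g g1 g2 =>
    ⟨S.ping hL.pre.hyp g _ (z := z) (w := w) (A := 200000000000000) (by omega) (by omega) z1 w1
      (by omega) g1 (by omega) (by omega) (by omega), by
      have := S.disp_mul g (a * t * a⁻¹) x
      omega⟩
  by_cases h : 1000 < S.d z (c • z)
  · exact ⟨_, hk, key c (by omega) h⟩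
  · refine ⟨s * (a * t * a⁻¹), K.mul_mem (hTK hs) hk, ?_⟩
    rw [← mul_assoc]
    refine key (c * s) ?_ ?_
    · have := S.disp_mul c s x
      have := hT s hs
      omega
    · have := S.d_tri (c • z) z (c • s • z)
      have := S.iso c z (s • z)
      have := S.d_comm z (c • z)
      rw [mul_smul]
      omega

theorem Lev.shrink' {S : GSp G X} {n N : ℕ} (hL : Lev S n N) {Q Y : Type} [Group Q] [MulAction Q Y]
    (q : Quo hL.rot Q Y) (g : G) (x : X) :
    q.sp.d (q.p (.inl x)) (q.π g • q.p (.inl x)) ≤ 1 ∨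
      q.sp.d (q.p (.inl x)) (q.π g • q.p (.inl x)) < S.d x (g • x) := by
  rw [q.p_smul]
  have h1 := q.d_le (.inl x) (g • .inl x)
  rw [Sum.smul_inl] at h1 ⊢
  by_cases h : S.d x (g • x) ≤ 1
  · have h2 := hL.d_pt x (g • x) 1 (by omega)
    omega
  · have h2 := hL.d_pt x (g • x) (S.d x (g • x) - 1) (by omega)
    omega

/-- In a locally finite normal subgroup, an element and an element of finite order of the whole
group lie in a finite subgroup. -/
theorem exists_fin_of_locFin {K : Subgroup G} (hK : K.Normal)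
    (h : ∀ T : Set G, T.Finite → T ⊆ K → (Subgroup.closure T : Set G).Finite) {k c : G} (hk : k ∈ K)
    (hc : IsOfFinOrder c) : ∃ H : Subgroup G, (H : Set G).Finite ∧ k ∈ H ∧ c ∈ H := by
  have h1 := finite_zpowers.2 hc
  have h2 := h _ (h1.image fun u => u * k * u⁻¹) (by
    rintro _ ⟨u, -, rfl⟩; exact hK.conj_mem k hk u)
  have h0 : k ∈ Subgroup.closure ((fun u => u * k * u⁻¹) '' (Subgroup.zpowers c : Set G)) :=
    Subgroup.subset_closure ⟨1, Subgroup.one_mem _, by simp⟩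
  have h3 : ∀ u ∈ Subgroup.zpowers c,
      ∀ b ∈ Subgroup.closure ((fun u => u * k * u⁻¹) '' (Subgroup.zpowers c : Set G)),
      u * b * u⁻¹ ∈ Subgroup.closure ((fun u => u * k * u⁻¹) '' (Subgroup.zpowers c : Set G)) := by
    intro u hu b hb
    induction hb using Subgroup.closure_induction with
    | mem b hb =>
      obtain ⟨w, hw, rfl⟩ := hb
      exact Subgroup.subset_closure ⟨u * w, Subgroup.mul_mem _ hu hw, by simp only; group⟩
    | one => simp
    | mul a b _ _ ha hb =>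
      have := Subgroup.mul_mem _ ha hb
      rwa [show u * a * u⁻¹ * (u * b * u⁻¹) = u * (a * b) * u⁻¹ by group] at this
    | inv a _ ha =>
      have := Subgroup.inv_mem _ ha
      rwa [show (u * a * u⁻¹)⁻¹ = u * a⁻¹ * u⁻¹ by group] at this
  generalize Subgroup.closure ((fun u => u * k * u⁻¹) '' (Subgroup.zpowers c : Set G)) = B at *
  let H : Subgroup G :=
    { carrier := {g | ∃ u ∈ Subgroup.zpowers c, g * u⁻¹ ∈ B}
      one_mem' := ⟨1, Subgroup.one_mem _, by simp⟩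
      mul_mem' := by
        rintro a b ⟨u, hu, ha⟩ ⟨w, hw, hb⟩
        refine ⟨u * w, Subgroup.mul_mem _ hu hw, ?_⟩
        have := B.mul_mem ha (h3 u hu _ hb)
        rwa [show a * u⁻¹ * (u * (b * w⁻¹) * u⁻¹) = a * b * (u * w)⁻¹ by group] at this
      inv_mem' := by
        rintro a ⟨u, hu, ha⟩
        refine ⟨u⁻¹, Subgroup.inv_mem _ hu, ?_⟩
        have := h3 u⁻¹ (Subgroup.inv_mem _ hu) _ (B.inv_mem ha)
        rwa [show u⁻¹ * (a * u⁻¹)⁻¹ * u⁻¹⁻¹ = a⁻¹ * u⁻¹⁻¹ by group] at this }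
  refine ⟨H, (h2.image2 (· * ·) h1).subset ?_, ⟨1, Subgroup.one_mem _, by simpa using h0⟩,
    ⟨c, Subgroup.mem_zpowers c, by simp⟩⟩
  rintro g ⟨u, hu, hg⟩
  exact ⟨_, hg, u, hu, by simp⟩

end

namespace Stage

variable {G0 : Type} [Group G0] {n N : ℕ} (s : Stage G0 n N)

theorem exists_lim (i : ℕ) : ∃ ρ : (s.seq i).G →* G0 ⧸ s.K,
    ∀ g, ρ ((s.seq i).π g) = QuotientGroup.mk g :=
  ⟨(s.seq i).π.liftOfSurjective (s.seq i).surj ⟨QuotientGroup.mk' s.K, fun g hg =>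
    (QuotientGroup.eq_one_iff g).2 ⟨i, hg⟩⟩,
    fun g => MonoidHom.liftOfRightInverse_comp_apply _ _ _ _ g⟩

theorem exists_kill {R : Set G0} (hR : R.Finite) (h : ∀ r ∈ R, r ∈ s.K) :
    ∃ i, ∀ r ∈ R, (s.seq i).π r = 1 := by
  have h3 : ∀ t : R, ∃ i, (s.seq i).π t = 1 := fun t => h t t.2
  choose f hf using h3
  have := hR.to_subtype
  obtain ⟨i, hi⟩ := (Set.finite_range f).bddAbove
  exact ⟨i, fun t ht => s.seq_mono (hi ⟨⟨t, ht⟩, rfl⟩) (hf ⟨t, ht⟩)⟩

theorem lim_fin (H : Subgroup (G0 ⧸ s.K)) (hH : (H : Set (G0 ⧸ s.K)).Finite) :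
    (∀ h ∈ H, h ^ N = 1) ∨
      ∃ c : G0 ⧸ s.K, IsOfFinOrder c ∧ orderOf c ≤ n ∧ H ≤ Subgroup.zpowers c := by
  obtain ⟨σ, hσ⟩ : ∃ σ : G0 ⧸ s.K → G0, ∀ a, QuotientGroup.mk (σ a) = a :=
    ⟨Quotient.out, QuotientGroup.out_eq'⟩
  obtain ⟨i, hi⟩ := s.exists_kill (hH.image2 (fun a b => σ a * σ b * (σ (a * b))⁻¹) hH) (by
    rintro _ ⟨a, -, b, -, rfl⟩
    rw [← QuotientGroup.eq_one_iff]
    simp [hσ])
  have hm : MulOn H fun a => (s.seq i).π (σ a) := fun a ha b hb => by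
    have := hi _ ⟨a, ha, b, hb, rfl⟩
    simp only [map_mul, map_inv] at this
    exact (mul_inv_eq_one.1 this).symm
  let A : Subgroup (s.seq i).G :=
    { carrier := (fun a => (s.seq i).π (σ a)) '' H
      one_mem' := ⟨1, H.one_mem, hm.one⟩
      mul_mem' := by
        rintro _ _ ⟨a, ha, rfl⟩ ⟨b, hb, rfl⟩
        exact ⟨a * b, H.mul_mem ha hb, hm a ha b hb⟩
      inv_mem' := by
        rintro _ ⟨a, ha, rfl⟩
        exact ⟨a⁻¹, H.inv_mem ha, hm.inv ha⟩ }
  obtain ⟨ρ, hρ⟩ := s.exists_lim i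
  rcases (s.seq i).lev.pre.alg.fin A (hH.image _) with h | ⟨c, c1, c2, c3⟩
  · left
    intro a ha
    have := congrArg ρ (h _ ⟨a, ha, rfl⟩)
    rwa [map_pow, hρ, hσ, map_one] at this
  · refine Or.inr ⟨ρ c, ρ.isOfFinOrder c1,
      (Nat.le_of_dvd c1.orderOf_pos (orderOf_map_dvd ρ c)).trans c2, fun a ha => ?_⟩
    rw [← MonoidHom.map_zpowers]
    exact ⟨_, c3 ⟨a, ha, rfl⟩, by rw [hρ, hσ]⟩

theorem seq_small (g : G0) (i : ℕ) (h : s.S.d s.x (s.π g • s.x) ≤ i) :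
    (s.seq i).S.d (s.seq i).x ((s.seq i).π g • (s.seq i).x) ≤ 1 := by
  have key : ∀ i, (s.seq i).S.d (s.seq i).x ((s.seq i).π g • (s.seq i).x) ≤ 1 ∨
      (s.seq i).S.d (s.seq i).x ((s.seq i).π g • (s.seq i).x) + i ≤ s.S.d s.x (s.π g • s.x) := by
    intro i
    induction i with
    | zero => exact Or.inr le_rfl
    | succ i ih =>
      have : (s.seq (i + 1)).S.d (s.seq (i + 1)).x ((s.seq (i + 1)).π g • (s.seq (i + 1)).x) ≤ 1 ∨
          (s.seq (i + 1)).S.d (s.seq (i + 1)).x ((s.seq (i + 1)).π g • (s.seq (i + 1)).x) < _ :=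
        (s.seq i).lev.shrink' (s.seq i).lev.rot.quo ((s.seq i).π g) (s.seq i).x
      omega
  have := key i
  omega

theorem lim_pow {g : G0} {i : ℕ} (h1 : ¬ IsOfFinOrder ((s.seq i).π g))
    (h2 : (s.seq i).S.d (s.seq i).x ((s.seq i).π g • (s.seq i).x) ≤ 10000000000000000) :
    (QuotientGroup.mk g : G0 ⧸ s.K) ^ N = 1 := by
  rw [← QuotientGroup.mk_pow, QuotientGroup.eq_one_iff]
  by_contra h
  have key : ∀ j, i ≤ j → ¬ IsOfFinOrder ((s.seq j).π g) ∧
      (s.seq j).S.d (s.seq j).x ((s.seq j).π g • (s.seq j).x) ≤ 10000000000000000 := by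
    intro j hj
    induction j, hj using Nat.le_induction with
    | base => exact ⟨h1, h2⟩
    | succ j _ ih =>
      have h3 : ¬ IsOfFinOrder ((s.seq (j + 1)).π g) := fun hf =>
        h ⟨j + 1, by
          rw [map_pow]
          exact (s.seq j).lev.short (s.seq j).lev.rot.quo ih.1 ih.2 hf⟩
      exact ⟨h3, (((s.seq j).next_lt g).resolve_left h3).le.trans ih.2⟩
  obtain ⟨j, hj⟩ := s.seq_fin g
  obtain ⟨m, hm, e⟩ := isOfFinOrder_iff_pow_eq_one.1 hj
  rw [← map_pow] at e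
  have := s.seq_mono (le_max_right i j) e
  rw [map_pow] at this
  exact (key _ (le_max_left i j)).1 (isOfFinOrder_iff_pow_eq_one.2 ⟨m, hm, this⟩)

/-- A normal subgroup of the limit that is not locally finite contains all `N`-th powers. -/
theorem pow_mem (hN : N ≤ n) {K : Subgroup (G0 ⧸ s.K)} (hK : K.Normal) {T : Set (G0 ⧸ s.K)}
    (hT : T.Finite) (hTK : T ⊆ K) (h : ¬ (Subgroup.closure T : Set (G0 ⧸ s.K)).Finite)
    (c : G0 ⧸ s.K) : c ^ N ∈ K := by
  obtain ⟨σ, hσ⟩ : ∃ σ : G0 ⧸ s.K → G0, ∀ a, QuotientGroup.mk (σ a) = a :=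
    ⟨Quotient.out, QuotientGroup.out_eq'⟩
  obtain ⟨i, hi⟩ := ((hT.insert c).image fun a => s.S.d s.x (s.π (σ a) • s.x)).bddAbove
  obtain ⟨ρ, hρ⟩ := s.exists_lim i
  obtain ⟨k, hk, h1, h2⟩ := (s.seq i).lev.exists_lox (s.seq i).x (hK.comap ρ)
    (T := (fun a => (s.seq i).π (σ a)) '' T) (by
      rintro _ ⟨a, ha, rfl⟩
      show ρ _ ∈ K
      rw [hρ, hσ]; exact hTK ha) (by
      rintro _ ⟨a, ha, rfl⟩
      exact s.seq_small _ i (hi ⟨a, Or.inr ha, rfl⟩)) (fun hE => by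
      have h3 := (s.seq i).lev.pre.elem_map ρ hE
      rw [Set.image_image] at h3
      simp only [hρ, hσ, Set.image_id'] at h3
      rcases h3 with ⟨H, h4, h5⟩ | ⟨y, h4, -⟩
      · exact h (h4.subset ((Subgroup.closure_le H).2 h5))
      · exact h4 (s.lim_order hN y).1) (s.seq_small (σ c) i (hi ⟨c, Or.inl rfl, rfl⟩))
  obtain ⟨k, rfl⟩ := (s.seq i).surj k
  rw [← map_mul] at h1 h2
  have h3 := s.lim_pow h1 h2
  have h4 : (QuotientGroup.mk k : G0 ⧸ s.K) ∈ K := by rw [← hρ]; exact hk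
  rw [QuotientGroup.mk_mul, hσ] at h3
  rw [← QuotientGroup.eq_one_iff, QuotientGroup.mk_pow,
    ← QuotientGroup.mk_mul_of_mem c h4, ← QuotientGroup.mk_pow, h3, QuotientGroup.mk_one]

theorem not_locFin {p : ℕ} (hp : p.Prime) (h1 : 3 < p) (h2 : n < 2 * p) {c a : G0 ⧸ s.K}
    (hc : orderOf c = p) (ha : orderOf a = 3) {K : Subgroup (G0 ⧸ s.K)} (hK : K.Normal)
    (h : ∀ T : Set (G0 ⧸ s.K), T.Finite → T ⊆ K → (Subgroup.closure T : Set (G0 ⧸ s.K)).Finite) :
    K = ⊥ := by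
  rw [eq_bot_iff]
  intro k hk
  by_contra h0
  have key : ∀ (u : G0 ⧸ s.K) (r : ℕ), r.Prime → 2 < r → orderOf u = r →
      ∃ m, 0 < m ∧ m ≤ n ∧ r ∣ m ∧ orderOf k ∣ m := by
    intro u r hr h3 hu
    obtain ⟨H, a1, a2, a3⟩ := exists_fin_of_locFin hK h hk (c := u) (orderOf_pos_iff.1 (by omega))
    rcases s.lim_fin H a1 with h4 | ⟨y, y1, y2, y3⟩
    · obtain ⟨j, hj⟩ := s.lev.pow
      have := orderOf_dvd_of_pow_eq_one (h4 u a3)
      rw [hu, hj] at this
      have := Nat.le_of_dvd two_pos (hr.dvd_of_dvd_pow this)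
      omega
    · exact ⟨_, y1.orderOf_pos, y2, hu ▸ orderOf_dvd_of_mem_zpowers (y3 a3),
        orderOf_dvd_of_mem_zpowers (y3 a2)⟩
  obtain ⟨m, m1, m2, ⟨j, rfl⟩, m4⟩ := key c p hp (by omega) hc
  obtain rfl : j = 1 := by
    rcases j with _ | _ | j
    · omega
    · rfl
    · nlinarith
  rw [mul_one] at m4
  have h5 : orderOf k = p := ((Nat.dvd_prime hp).1 m4).resolve_left fun e =>
    h0 (orderOf_eq_one_iff.1 e)
  obtain ⟨m, e1, e2, e3, e4⟩ := key a 3 Nat.prime_three (by omega) ha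
  rw [h5] at e4
  have := Nat.le_of_dvd e1 (Nat.Coprime.mul_dvd_of_dvd_of_dvd
    ((Nat.coprime_primes Nat.prime_three hp).2 (by omega)) e3 e4)
  omega

end Stage

theorem main_simple (n : ℕ) (hn : 10 ^ 48 ≤ n) : ∃ (G : Type) (_ : Group G),
    (∃ a b : G, Subgroup.closure {a, b} = ⊤) ∧ Infinite G ∧ IsSimpleGroup G ∧
    (∀ g : G, IsOfFinOrder g ∧ orderOf g ≤ n) ∧ ∀ m, 1 ≤ m → m ≤ n → ∃ g : G, orderOf g = m := by
  have h1 : n < 2 * 2 ^ Nat.log 2 n := by
    rw [← pow_succ']; exact Nat.lt_pow_succ_log_self (by norm_num) n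
  have hN := Nat.pow_log_le_self 2 (show n ≠ 0 by omega)
  obtain ⟨p, hp, p1, p2⟩ := Nat.exists_prime_lt_and_le_two_mul (n / 2) (by omega)
  obtain ⟨G, X, _, _, S, h2, ⟨a, b, ha, hb, h5⟩, h4⟩ := exists_base_two hn h1 hp (by omega)
    (by omega)
  have h3 : Group.FG G := Group.fg_iff.2 ⟨_, h5, Set.toFinite _⟩
  obtain ⟨x⟩ := h2.pre.ne
  let s : Stage G n (2 ^ Nat.log 2 n) :=
    { G := G, X := X, S := S, lev := h2, π := MonoidHom.id G, surj := Function.surjective_id,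
      x := x, ord := fun _ _ => rfl }
  have h6 : ∀ m, 1 ≤ m → m ≤ n → ∃ g : G ⧸ s.K, orderOf g = m := fun m m1 m2 => by
    obtain ⟨g, hg⟩ := h4 m m1 m2
    exact ⟨QuotientGroup.mk g, by rw [s.lim_ord (orderOf_pos_iff.1 (by omega)), hg]⟩
  have hinf := s.lim_infinite (by omega) h4
  have h7 : ∀ K : Subgroup (G ⧸ s.K), QuotientGroup.mk a ∈ K → QuotientGroup.mk b ∈ K → K = ⊤ := by
    intro K k1 k2
    rw [eq_top_iff]
    rintro g -
    obtain ⟨g, rfl⟩ := QuotientGroup.mk_surjective g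
    have : Subgroup.closure {a, b} ≤ K.comap (QuotientGroup.mk' s.K) := by
      rw [Subgroup.closure_le]
      rintro _ (rfl | rfl)
      exacts [k1, k2]
    rw [h5] at this
    exact this (Subgroup.mem_top g)
  refine ⟨G ⧸ s.K, inferInstance, ⟨QuotientGroup.mk a, QuotientGroup.mk b,
    h7 _ (Subgroup.subset_closure (Or.inl rfl)) (Subgroup.subset_closure (Or.inr rfl))⟩,
    hinf, ⟨fun K hK => ?_⟩, s.lim_order hN, h6⟩
  by_cases h : ∀ T : Set (G ⧸ s.K), T.Finite → T ⊆ K → (Subgroup.closure T : Set (G ⧸ s.K)).Finite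
  · obtain ⟨c, hc⟩ := h6 p hp.pos (by omega)
    obtain ⟨a, ha⟩ := h6 3 (by omega) (by omega)
    exact Or.inl (s.not_locFin hp (by omega) (by omega) hc ha hK h)
  right
  push Not at h
  obtain ⟨T, t1, t2, t3⟩ := h
  have h8 : ∀ c : G, orderOf c = p → QuotientGroup.mk c ∈ K := by
    intro c hc
    have h9 : (orderOf (QuotientGroup.mk c : G ⧸ s.K)).Coprime (2 ^ Nat.log 2 n) := by
      rw [s.lim_ord (orderOf_pos_iff.1 (by omega)), hc]
      exact Nat.Coprime.pow_right _ (Nat.coprime_two_right.2 (hp.odd_of_ne_two (by omega)))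
    obtain ⟨j, hj⟩ := exists_pow_eq_self_of_coprime h9.symm
    have := K.pow_mem (s.pow_mem hN hK t1 t2 t3 (QuotientGroup.mk c)) j
    rwa [hj] at this
  exact h7 K (h8 a ha) (h8 b hb)

end Pool.Agent.Lib.OCn
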